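import Mathlib
import Pool.Agent.U288.RO.O3

/-!
# Coloured prime tuples with short shifts: the images of sparse patterns under ALL maps into a polylogarithmic interval

Fix a number `r` of colours, `k` and `L`. For all large `N` let the natural numbers be coloured in any way with `r` colours,
let `X` be any number `≥ X₀` and `g_1, ..., g_L` ANY injective maps from `{0, ..., X}` to the integers of absolute value at
most `(log N) ^ A`; they may depend on `N` and on the colouring. Then a positive proportion of the vectors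
`0 < h_1 < ... < h_k ≤ X` for which all `h_j` and all `h_j - h_i` are shifted primes (a set of density zero) has the property:
for ALL `j ≤ L` and ALL nonempty `T ⊆ {h_1, ..., h_k}` there are at least `c N / (log N) ^ K` integers `m`, `|m| ≤ 2 N`, such
that all the numbers `m + g_j(t)`, `t ∈ T`, are primes of the same colour. The constants `c`, `K`, `X₀` and the proportion do
not depend on `A`, on the colouring, or on the maps.

Proof. By the sieve of Maynard, for all large `N`, for each set of `K` multiples of `M` below `(log N) ^ A` at least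
`c₀ N / (log N) ^ K` translates contain `r k + 1` primes (`RO.low_global`, from the library's theorem for weights), hence `k`
primes of the same colour, and some subset of size `s ≤ k` occurs with this frequency (`Nx.base_G`). By Ramsey's theorem
every set of `K'` integers up to `X` contains `k + 1` elements `s_0 < ... < s_k` such that all the images of all the nonempty
parts of `{s_1 - s_0, ..., s_k - s_0}` have the property (`Nx.hered`). A family of patterns which is met by every set of `K'`
integers contains a positive proportion of the patterns made of shifted primes (`Pool.Agent.U288.SP.principle`: counts of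
the configurations of `K'` points and of pairs of them, and the inequality of Cauchy and Schwarz).
-/

set_option autoImplicit false

namespace Pool.Agent.Results.MP_485179_nt.AnyShortShifts

open Filter Finset

open Classical in
/-- the vectors `0 = h 0 < h 1 < ... < h k ≤ X`; if `σ ≠ 0`, those with `h j - h i + σ` prime for all `0 ≤ i < j ≤ k` -/
noncomputable def patterns (k : ℕ) (σ : ℤ) (X : ℕ) : Finset (Fin (k + 1) → ℕ) :=
  (Fintype.piFinset (fun _ : Fin (k + 1) => range (X + 1))).filter (fun h => h 0 = 0 ∧ StrictMono h ∧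
    ∀ i j, i < j → σ ≠ 0 → ((h j : ℤ) - h i + σ).toNat.Prime)

/-- the number of the conditions -/
def edges (k : ℕ) (σ : ℤ) : ℕ := if σ = 0 then 0 else k * (k + 1) / 2

open Classical in
/-- the number of the integers `m`, `|m| ≤ 2 N`, such that all `m + t`, `t ∈ T`, are primes of the same colour -/
noncomputable def count {r : ℕ} (f : ℕ → Fin r) (N : ℕ) (T : Finset ℤ) : ℕ :=
  ((Icc (-(2 * (N : ℤ))) (2 * N)).filter (fun m => (∀ t ∈ T, (m + t).toNat.Prime) ∧
    ∃ col : Fin r, ∀ t ∈ T, f (m + t).toNat = col)).card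

/-- the set `{h 1, ..., h k}` -/
def points {k : ℕ} (h : Fin (k + 1) → ℕ) : Finset ℕ := (univ : Finset (Fin k)).image (fun a => h a.succ)

open Classical in
/-- the patterns such that `count f N (g_j(T)) ≥ w` for all `j` and all nonempty `T ⊆ {h 1, ..., h k}` -/
noncomputable def good {L r : ℕ} (f : ℕ → Fin r) (k : ℕ) (σ : ℤ) (w : ℝ) (N : ℕ) (g : Fin L → ℕ → ℤ) (X : ℕ) :
    Finset (Fin (k + 1) → ℕ) :=
  (patterns k σ X).filter (fun h => ∀ j, ∀ T ⊆ points h, T.Nonempty → w ≤ (count f N (T.image (g j)) : ℝ))

/-- **Coloured prime tuples with short shifts.** The constants `c₁`, `C`, `c`, `K`, `X₀` depend only on `r`, `k`, `L`, `σ`,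
and `N₀` depends also on `A`. -/
theorem result (r k L : ℕ) (σ : ℤ) (hσ : σ = 0 ∨ σ = 1 ∨ σ = -1) :
    ∃ (c₁ C c : ℝ) (K : ℕ), 0 < c₁ ∧ 0 < c ∧ ∃ X₀ : ℕ,
      (∀ X : ℕ, X₀ ≤ X → ((patterns k σ X).card : ℝ) ≤ C * ((X : ℝ) ^ k / Real.log X ^ edges k σ)) ∧
      ∀ A : ℝ, ∃ N₀ : ℕ, ∀ N : ℕ, N₀ ≤ N → ∀ X : ℕ, X₀ ≤ X → ∀ f : ℕ → Fin r, ∀ g : Fin L → ℕ → ℤ,
        (∀ j, Set.InjOn (g j) (Set.Iic X)) → (∀ j, ∀ n ≤ X, |(g j n : ℝ)| ≤ Real.log N ^ A) →
        c₁ * ((X : ℝ) ^ k / Real.log X ^ edges k σ) ≤ ((good f k σ (c * (N / Real.log N ^ K)) N g X).card : ℝ) := by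
  classical
  obtain ⟨c₁, C, c, K, hc1, hc, X₀, h1, h2⟩ := Pool.Agent.U288.RO.Nx.fin_mono r k L σ hσ
  have e : ∀ X : ℕ, (Pool.Agent.U288.SP.shifts (fun _ _ : Fin (k + 1) => σ) X) = patterns k σ X := by
    intro X
    unfold Pool.Agent.U288.SP.shifts patterns
    congr!
  refine ⟨c₁, C, c, K, hc1, hc, X₀, fun X hX => ?_, fun A => ?_⟩
  · have h3 := h1 X hX
    rw [e X] at h3
    exact h3
  · obtain ⟨N₀, hN⟩ := h2 A
    refine ⟨N₀, fun N hN0 X hX f g hg hgA => ?_⟩
    have h3 := hN N hN0 X hX f g hg hgA
    rw [e X] at h3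
    refine h3.trans (le_of_eq ?_)
    unfold good Pool.Agent.U288.RO.Nx.HerG Pool.Agent.U288.RO.Nx.monoSet count points
    congr!

end Pool.Agent.Results.MP_485179_nt.AnyShortShifts
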