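import Pool.Agent.U288.RO.K3

/-!
# Prime tuples of one colour whose distances are shifted primes: the right order of magnitude

However the numbers are coloured with `r` colours: for every graph on `{0, ..., k}` with signs on its edges, a
positive proportion of the vectors `0 = h 0 < h 1 < ... < h k ≤ D` whose distances along the edges are shifted
primes (`h j - h i ± 1` prime) satisfy the lower bound of the right order of magnitude in the conjecture of Hardy and
Littlewood, for primes of one colour, for `{h 0, ..., h k}` and for all its subsets, for all `D` between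
`log x (log log x) ^ B` and any power of `log x`.
-/

set_option autoImplicit false

open Finset Filter

namespace Pool.Agent.Results.MP_485179_nt.MonochromaticShiftedPrimeGraphs

open Classical in
/-- the number of `1 ≤ m ≤ x` for which all `m + t`, `t ∈ T`, are primes of the same colour -/
noncomputable def count {r : ℕ} (f : ℕ → Fin r) (x : ℝ) (T : Finset ℕ) : ℕ :=
  ((Icc 1 ⌊x⌋₊).filter (fun m => (∀ t ∈ T, (m + t).Prime) ∧ ∃ c, ∀ t ∈ T, f (m + t) = c)).card

/-- the number of residue classes modulo `p` occupied by `T` -/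
def nu (T : Finset ℕ) (p : ℕ) : ℕ := (T.image (· % p)).card

/-- the factor at `p` of the singular series -/
noncomputable def loc (T : Finset ℕ) (p : ℕ) : ℝ :=
  (1 - (nu T p : ℝ) / p) / (1 - 1 / (p : ℝ)) ^ T.card

/-- the singular series of `T` -/
noncomputable def 𝔖 (T : Finset ℕ) : ℝ := ∏' p : Nat.Primes, loc T p

open Classical in
/-- the vectors `0 = h 0 < h 1 < ... < h k ≤ D` such that `h j - h i + s i j` is prime for all `i < j` with
`s i j ≠ 0` -/
noncomputable def patterns {k : ℕ} (s : Fin (k + 1) → Fin (k + 1) → ℤ) (D : ℝ) : Finset (Fin (k + 1) → ℕ) :=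
  (Fintype.piFinset (fun _ : Fin (k + 1) => range (⌊D⌋₊ + 1))).filter (fun h => h 0 = 0 ∧ StrictMono h ∧
    ∀ i j, i < j → s i j ≠ 0 → ((h j : ℤ) - h i + s i j).toNat.Prime)

/-- the number of the pairs `i < j` with `s i j ≠ 0` -/
def edges {k : ℕ} (s : Fin (k + 1) → Fin (k + 1) → ℤ) : ℕ :=
  (univ.filter (fun q : Fin (k + 1) × Fin (k + 1) => q.1 < q.2 ∧ s q.1 q.2 ≠ 0)).card

open Classical in
/-- the patterns such that for every nonempty subset `T` of `{h 0, ..., h k}` the singular series of `T` is positive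
and `count f x T ≥ κ 𝔖(T) x / (log x) ^ |T|` -/
noncomputable def good {k r : ℕ} (f : ℕ → Fin r) (s : Fin (k + 1) → Fin (k + 1) → ℤ) (D x κ : ℝ) :
    Finset (Fin (k + 1) → ℕ) :=
  (patterns s D).filter (fun h => ∀ I : Finset (Fin (k + 1)), I.Nonempty →
    0 < 𝔖 (I.image h) ∧ κ * 𝔖 (I.image h) * (x / Real.log x ^ I.card) ≤ (count f x (I.image h) : ℝ))

open Pool.Agent.U288.RO Pool.Agent.H387R2.Uni

/-- For all `r ≥ 1`, `k` and every matrix `s` of signs `0, 1, -1` there are `κ, c > 0`, `C` and `B` such that for every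
`A`, all large `x`, ALL colourings `f` of the natural numbers with `r` colours and all real `D` with
`log x (log log x) ^ B ≤ D ≤ (log x) ^ A`: there are at most `C D ^ k / (log D) ^ e` patterns up to `D`, `e` the number
of edges, and at least `c D ^ k / (log D) ^ e` of them are good for `f`. -/
theorem result :
    (∀ T : Finset ℕ, HasProd (fun p : Nat.Primes => loc T p) (𝔖 T)) ∧
    ∀ (r : ℕ), 1 ≤ r → ∀ (k : ℕ) (s : Fin (k + 1) → Fin (k + 1) → ℤ), (∀ i j, s i j = 0 ∨ s i j = 1 ∨ s i j = -1) →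
      ∃ (κ c C : ℝ) (B : ℕ), 0 < κ ∧ 0 < c ∧ ∀ A : ℝ, ∃ X : ℝ, ∀ x : ℝ, X ≤ x → ∀ f : ℕ → Fin r, ∀ D : ℝ,
        Real.log x * Real.log (Real.log x) ^ B ≤ D → D ≤ Real.log x ^ A →
        c * (D ^ k / Real.log D ^ edges s) ≤ ((good f s D x κ).card : ℝ) ∧
        ((patterns s D).card : ℝ) ≤ C * (D ^ k / Real.log D ^ edges s) := by
  classical
  refine ⟨fun T => CT_hasProd T, fun r hr k s hs => ?_⟩
  obtain ⟨c, κ, t, C, hc, hκ, ht, hC, B, hmain⟩ := real_mainK r hr k s hs
  refine ⟨κ / Real.exp (2 * k * t), c, C, B, by positivity, hc, fun A => ?_⟩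
  obtain ⟨X, hX⟩ := eventually_atTop.1 ((hmain A).and ((real_subK r k κ t hκ).and
    (eventually_ge_atTop (3 : ℝ))))
  refine ⟨X, fun x hx f D hD1 hD2 => ?_⟩
  obtain ⟨h1, h2, hx3⟩ := hX x hx
  obtain ⟨h3, h4⟩ := h1 f D hD1 hD2
  refine ⟨h3.trans ?_, h4⟩
  rw [Nat.cast_le]
  apply card_le_card
  intro h hh
  have h5 := h2 f s ⌊D⌋₊ h hh
  have h6 := (mem_goodRK.1 hh).1
  unfold good
  rw [mem_filter]
  refine ⟨?_, fun I hI => ⟨(h5 I hI).2.1, ?_⟩⟩
  · simp only [Pool.Agent.U288.SP.shifts, mem_filter] at h6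
    simp only [patterns, mem_filter]
    exact h6
  · obtain ⟨_, h7, h8, h9⟩ := h5 I hI
    have h10 : κ / Real.exp (2 * k * t) * 𝔖 (I.image h) ≤ κ := by
      rw [div_mul_eq_mul_div, div_le_iff₀ (Real.exp_pos _)]
      exact mul_le_mul_of_nonneg_left h8 hκ.le
    have hlp : 0 < Real.log x := Real.log_pos (by linarith)
    calc κ / Real.exp (2 * k * t) * 𝔖 (I.image h) * (x / Real.log x ^ I.card) ≤ κ * (x / Real.log x ^ I.card) :=
          mul_le_mul_of_nonneg_right h10 (by positivity)
      _ ≤ _ := by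
          refine h9.trans (le_of_eq ?_)
          unfold cntK count
          congr!

end Pool.Agent.Results.MP_485179_nt.MonochromaticShiftedPrimeGraphs
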