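import Pool.Agent.U163.SU.Uni

/-!
# Strings of consecutive primes `n` with all `n + d`, `d ∈ D`, almost prime, uniformly in the shifts

The question is about the number of the `n ≤ x` for which `n` and all the `n + d`, `d ∈ D`, are prime, uniformly in the
`k`-element sets `D ⊂ [2, (log x)^(k+1)]` with nonzero singular series. Here `n` is prime and the `n + d` are almost
primes (a bounded number of prime factors, all larger than a power of `x`), and the `n` even form strings of
consecutive primes: uniformly for ALL `k`-element sets `D ⊂ (L, x ^ A]` such that the singular series of `{0} ∪ D` is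
not zero a positive proportion of the patterns `H` of `m` elements of any given large finite set `T ⊂ [0, L]` are
patterns of consecutive primes `n + h`, `h ∈ H`, of this kind, each for at least `x / (log x) ^ B` of the `n` in
`(x, 2 x]`. Here `L` is any upper bound of `T`, a constant.

The file `UniformTuples` of this problem (helper832) is about the `n` for which none of the `n`, `n + d` has a prime
factor `≤ x ^ (1 / r)`, uniformly in `D`; in the present file `n` is a prime, in a string of consecutive primes.

Proof. The theorem `R498.MP.stringsUR` of the starting library (Maynard-Tao theorem for strings of consecutive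
primes with almost prime polynomial values, uniformly in the polynomial; it is used by starting hand-ins only for
Goldbach's problem) is applied to `∏ (X + d)`; the proportion of the patterns follows by double counting
(`Helper32K9.Str`).
-/

set_option autoImplicit false

namespace Pool.Agent.Results.MP_485179_nt.PrimePositions

open Finset Filter Polynomial

/-- `n` has at most `r` prime factors, counted with multiplicity, all of them at least `w`. -/
def AlmostPrime (r : ℕ) (w : ℝ) (n : ℕ) : Prop :=
  n.primeFactorsList.length ≤ r ∧ ∀ p : ℕ, p.Prime → p ∣ n → w ≤ p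

/-- The integers `n` with `x < n`, `n + max H ≤ 2 x`, such that the primes in the interval `[n, n + max H]` are
exactly the numbers `n + h`, `h ∈ H`, all of them are `≡ a` modulo `q`, and for all of them and all `d ∈ D` the number
`n + h + d` has at most `r` prime factors, all of them at least `x ^ δ`. -/
def places (D : Finset ℕ) (x q a r : ℕ) (δ : ℝ) (H : Finset ℕ) : Set ℕ :=
  {n | x < n ∧ n + H.sup id ≤ 2 * x ∧ (∀ y ≤ H.sup id, (n + y).Prime ↔ y ∈ H) ∧
    ∀ h ∈ H, n + h ≡ a [MOD q] ∧ ∀ d ∈ D, AlmostPrime r ((x : ℝ) ^ δ) (n + h + d)}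

/-- **Strings of consecutive primes `n` with almost prime `n + d`, `d ∈ D`, uniformly in `D`.** Let `k`, `m ≥ 1` be
given and let `q` be squarefree. There are `K`, `B` and `δ > 0` such that for every `A` there is an `r` such that for
every finite set `T` of at least `K` nonnegative integers, every upper bound `L` of `T` and all large `x` the
following holds for ALL `k`-element sets `D` of integers in `(L, x ^ A]` such that for no prime `p` the set `{0} ∪ D`
covers all the classes modulo `p` (that is, for every `p` there is an `n` for which `p` divides none of the `n`,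
`n + d`), and all `a` for which `a` and all the `a + d` are prime to `q` (for instance `q = 1`): for at least the
proportion `1 / K` of the subsets `H` of `T` with `m` elements there are at least `x / (log x) ^ B` integers `n`,
`x < n`, `n + max H ≤ 2 x`, such that the primes in `[n, n + max H]` are exactly the numbers `n + h`, `h ∈ H`, all of
them are `≡ a` modulo `q`, and all the `n + h + d`, `d ∈ D`, have at most `r` prime factors, all of them at least
`x ^ δ`. -/
theorem result (k m : ℕ) (hm : 1 ≤ m) (q : ℕ) (hq : Squarefree q) :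
    ∃ (K B : ℕ) (δ : ℝ), 0 < K ∧ 0 < δ ∧ ∀ A : ℕ, ∃ r : ℕ, ∀ T : Finset ℕ, K ≤ T.card →
      ∀ L : ℕ, (∀ t ∈ T, t ≤ L) →
      ∀ᶠ x : ℕ in atTop, ∀ D : Finset ℕ, D.card = k → (∀ d ∈ D, L < d ∧ d ≤ x ^ A) →
      (∀ p : ℕ, p.Prime → ∃ n : ℕ, ¬ p ∣ n ∧ ∀ d ∈ D, ¬ p ∣ n + d) →
      ∀ a : ℕ, a.Coprime q → (∀ d ∈ D, (a + d).Coprime q) →
      T.card.choose m ≤ K * {H : Finset ℕ | H ⊆ T ∧ H.card = m ∧
        (x : ℝ) / Real.log x ^ B ≤ (places D x q a r δ H).ncard}.ncard := by
  classical
  obtain ⟨K, B, δ, hK, hδ, hmain⟩ := Pool.Agent.U163.SU.uni_prod k 1 q hq m hm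
  refine ⟨K, B, δ, hK, hδ, fun A => ?_⟩
  obtain ⟨R, hR⟩ := hmain (A + 3)
  refine ⟨R, fun T hT L hL => ?_⟩
  have hsup : T.sup id ≤ L := Finset.sup_le fun t ht => hL t ht
  filter_upwards [hR T hT, eventually_ge_atTop 3] with x hx hx3
  intro D hDk hD hadm a ha haD
  let e : Fin k ≃ D := (D.equivFinOfCardEq hDk).symm
  have heval : ∀ (d : ℕ) (y : ℤ), (X + C (d : ℤ) : ℤ[X]).eval y = y + d := by
    intro d y
    simp
  refine (hx (fun j => X + C (((e j : D) : ℕ) : ℤ)) (fun j => by
      refine (natDegree_add_le _ _).trans (max_le natDegree_X_le ?_)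
      rw [natDegree_C]
      omega)
    (fun p hp => by
      obtain ⟨n, hn1, hn2⟩ := hadm p hp
      refine ⟨n, fun h => hn1 (Int.natCast_dvd_natCast.1 h), fun j h => hn2 _ (e j).2 ?_⟩
      rw [heval] at h
      exact_mod_cast h)
    (fun j y hy => by
      rw [heval]
      refine Pool.Agent.U163.SU.quad_le hx3 (c := 1) (d := (((e j : D) : ℕ) : ℤ)) (by norm_num) (by positivity)
        (one_le_pow₀ (by exact_mod_cast (by omega : 1 ≤ x))) (by exact_mod_cast (hD _ (e j).2).2) ?_
      calc |y + (((e j : D) : ℕ) : ℤ)| ≤ |y| + |(((e j : D) : ℕ) : ℤ)| := abs_add_le _ _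
        _ ≤ 1 * (2 * x) + (((e j : D) : ℕ) : ℤ) := by
            rw [Nat.abs_cast]
            linarith)
    (fun j y _ hy => by
      rw [heval]
      intro h0
      have h1 := (hD _ (e j).2).1
      have h2 : |y| ≤ (L : ℤ) := hy.trans (by exact_mod_cast hsup)
      rw [abs_le] at h2
      omega)
    a (fun p hp hpq => by
      refine ⟨fun h => ?_, fun j h => ?_⟩
      · have h1 := Nat.dvd_gcd (Int.natCast_dvd_natCast.1 h) hpq
        rw [ha] at h1
        exact hp.one_lt.ne' (Nat.dvd_one.1 h1)
      · rw [heval] at h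
        have h0 : p ∣ a + ((e j : D) : ℕ) := by exact_mod_cast h
        have h1 := Nat.dvd_gcd h0 hpq
        rw [haD _ (e j).2] at h1
        exact hp.one_lt.ne' (Nat.dvd_one.1 h1))).trans (Nat.mul_le_mul_left _ ?_)
  have heq : ∀ H, Pool.Agent.U163.SU.placesP (fun j : Fin k => X + C (((e j : D) : ℕ) : ℤ)) x q a R δ H ⊆
      places D x q a R δ H := by
    rintro H n ⟨h1, h2, h3, h4⟩
    refine ⟨h1, h2, h3, fun h hh => ⟨(h4 h hh).1, fun d hd => ?_⟩⟩
    have h5 := ((h4 h hh).2 (e.symm ⟨d, hd⟩)).2
    rw [heval, Equiv.apply_symm_apply] at h5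
    have h6 : (((n + h : ℕ) : ℤ) + (d : ℤ)).natAbs = n + h + d := by
      have : (((n + h : ℕ) : ℤ) + (d : ℤ)) = ((n + h + d : ℕ) : ℤ) := by push_cast; ring
      rw [this, Int.natAbs_natCast]
    rw [h6] at h5
    exact h5
  have hfin : ∀ P : Finset ℕ → Prop, {H : Finset ℕ | H ⊆ T ∧ H.card = m ∧ P H}.Finite := by
    intro P
    apply (T.powersetCard m).finite_toSet.subset
    rintro H ⟨h1, h2, -⟩
    exact Finset.mem_coe.2 (Finset.mem_powersetCard.2 ⟨h1, h2⟩)
  apply Set.ncard_le_ncard _ (hfin _)
  rintro H ⟨h1, h2, h3⟩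
  refine ⟨h1, h2, h3.trans (Nat.cast_le.2 (Set.ncard_le_ncard (heq H) ?_))⟩
  refine (Set.finite_Iic (2 * x)).subset fun y hy => ?_
  have h1 : y + H.sup id ≤ 2 * x := hy.2.1
  rw [Set.mem_Iic]
  omega

end Pool.Agent.Results.MP_485179_nt.PrimePositions
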