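import Pool.Agent.U187.PT.Main

/-!
# Prime tuples with short shifts: subexponential constants suffice

For `k ≥ 1` let `Upper k B` be the statement: for every `ε > 0`, all large `x` and ALL `k`-element sets
`D` of integers in `[2, (log x)^(k+1)]` with `𝔖({0} ∪ D) ≠ 0` one has
`π_{k+1}(x, {0} ∪ D) ≤ (B + ε) 𝔖({0} ∪ D) x / (log x)^(k+1)`.  The upper half of Q1 for `k` is
`Upper k 1`; the sieve gives `Upper k (2^(k+1) (k+1)!)`.

We prove that these constants are tied together for different `k` by a power trick: if `B` is
admissible for the sets of `m (k + 1)` forms, then `B^(1/m)` is admissible for the sets of `k + 1`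
forms.  So the factor by which the upper bound misses the truth must grow at least exponentially with
the number of forms, or there is no loss at all: the sharp bound of Q1 for all `k` follows from bounds
with any constants `e^{o(n)}` for `n` forms, instead of the constants `2^n n!` of the sieve.
Conversely, if the number of prime patterns exceeds the prediction for a fixed `k` by a factor `c > 1`
(for some `D` depending on `x` and arbitrarily large `x`), then for all `m` there are sets of
`m (k + 1)` forms for which it exceeds the prediction by nearly the factor `c^m`.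

The sharp upper bound for a single `k` gives the asymptotic formula of Q1 (both halves) for this `k`
and all sets `D` of shifts, except for a proportion which tends to `0`.

Proof of the power law.  For a set `T` of `k + 1` shifts consider the function
`Z(ν) = #{h < R : ν + h + T consists of primes}`, `R` about `(log x)^(m (k+1)) / 2`.  Its `m`-th moment
over `ν ≤ x` is the sum of `π(x, ⋃ (h_i + T))` over the `m`-tuples `(h_1, …, h_m)` (those for which
the translates are disjoint suffice, because `Z` is large), and the average of the singular series
of these unions is at most `𝔖(T)^m (1 + o(1))` by the independence of the residues.  By Jensen's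
inequality the `m`-th moment is at least the `m`-th power of the mean, which is
`R π(x, T) / x`.
-/

set_option autoImplicit false

namespace Pool.Agent.Results.MP_485179_nt.SubexponentialConstants

open Pool.Agent.U187.PT

/-- **Subexponential constants suffice.**  Let `k` be the number of shifts, `Upper k B`: the upper
bound with the constant `B + ε`, uniform in all `k`-element sets `D` of integers in
`[2, (log x)^(k+1)]`.

1. Power law: if the constant `B` is admissible for `m (k + 1) - 1` shifts (`m (k + 1)` forms), then
`B^(1/m)` is admissible for `k` shifts.
2. No constant `B < 1` is admissible.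
3. Either `Upper k 1` holds for all `k ≥ 1` (the upper half of Q1), or the constants grow
exponentially: there are `k ≥ 1` and `c > 1` such that for all `m ≥ 1` the constant `c^m` is not
admissible for `m (k + 1) - 1` shifts.
4. If `Upper k 1` holds, then for every `ε > 0` and all large `x` the ratio of `π_{k+1}(x, {0} ∪ D)`
to the prediction is in `[1 - ε, 1 + ε]`, except for a proportion of at most `ε` of the `k`-element
sets `D` of integers in `[2, (log x)^(k+1)]`. -/
theorem result :
    (∀ k m : ℕ, 1 ≤ m → ∀ B : ℝ, 0 ≤ B → Upper (m * (k + 1) - 1) B →
      Upper k (B ^ (1 / (m : ℝ)))) ∧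
    (∀ k : ℕ, 1 ≤ k → ∀ B : ℝ, Upper k B → 1 ≤ B) ∧
    ((∀ k : ℕ, 1 ≤ k → Upper k 1) ∨
      ∃ k : ℕ, 1 ≤ k ∧ ∃ c : ℝ, 1 < c ∧ ∀ m : ℕ, 1 ≤ m → ¬ Upper (m * (k + 1) - 1) (c ^ m)) ∧
    (∀ k : ℕ, 1 ≤ k → Upper k 1 → ∀ ε : ℝ, 0 < ε → ∃ x₀ : ℝ, ∀ x : ℝ, x₀ ≤ x →
      ((exceptional k x ε).card : ℝ) ≤ ε * ((shifts k x).card : ℝ)) :=
  ⟨power', one_le, dichotomy, almost_all⟩

end Pool.Agent.Results.MP_485179_nt.SubexponentialConstants
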