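import Pool.Agent.U832.RG.TupUse

/-!
# Almost prime tuples `m, m + d_1, …, m + d_k`, uniformly in the shifts `d_i ≤ x ^ A` and in all short intervals

Let `k ≥ 1`. Uniformly over all `k`-element sets `D` of positive integers `≤ x ^ A` (in the question: `≤ log ^ (k+1) x`)
for which the singular series of `{0} ∪ D` does not vanish, consider the `m` for which none of the numbers `m`,
`m + d`, `d ∈ D`, has a prime factor `≤ x ^ (1 / r)`. In every interval of length `≥ x ^ θ` their number is as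
expected, and they form a Poisson process: the numbers of such `m` in disjoint windows, seen from an arbitrary such
`m` or from an arbitrary integer, are independent Poisson variables, although the windows contain pairs `m < m'` for
which the two tuples overlap.
-/

set_option autoImplicit false

namespace Pool.Agent.Results.MP_485179_nt.UniformTuples

open Finset Filter Pool.Agent.U832.RG

/-- The number `ν(p)` of the residue classes modulo `p` which meet `{0} ∪ D`. -/
def nu (D : Finset ℕ) (p : ℕ) : ℕ := ((insert 0 D).image (fun d => d % p)).card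

/-- The `m` such that no prime `p ≤ y` divides `m` or one of the numbers `m + d`, `d ∈ D`. -/
def Rough (D : Finset ℕ) (y : ℕ) : Set ℕ := {m | ∀ p : ℕ, p.Prime → p ≤ y → ∀ d ∈ insert 0 D, ¬ p ∣ m + d}

/-- The product of `1 - ν(p) / p` over the primes `p ≤ y`. -/
noncomputable def V (D : Finset ℕ) (y : ℕ) : ℝ := ∏ p ∈ (Icc 1 y).filter Nat.Prime, (1 - (nu D p : ℝ) / p)

/-- the shifts -/
def HH (D : Finset ℕ) : Finset ℤ := (insert 0 D).image (fun d : ℕ => (d : ℤ))

lemma HH_card (D : Finset ℕ) (k : ℕ) (hD : D.card = k) (h0 : 0 ∉ D) : (HH D).card = k + 1 := by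
  unfold HH
  rw [card_image_of_injective _ Nat.cast_injective, card_insert_of_notMem h0, hD]

lemma mem_HH (D : Finset ℕ) (h : ℤ) : h ∈ HH D ↔ ∃ d ∈ insert 0 D, (d : ℤ) = h := by
  unfold HH
  rw [mem_image]

lemma rough_eq (D : Finset ℕ) (y : ℕ) : RoughT (HH D) y = Rough D y := by
  ext m
  constructor
  · intro h p hp hpy d hd hdv
    refine h p hp hpy (d : ℤ) ((mem_HH D _).2 ⟨d, hd, rfl⟩) ?_
    exact_mod_cast hdv
  · intro h p hp hpy e he hdv
    obtain ⟨d, hd, rfl⟩ := (mem_HH D e).1 he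
    refine h p hp hpy d hd ?_
    exact_mod_cast hdv

lemma nu_eq (D : Finset ℕ) (p : ℕ) (hp : p.Prime) : wT (HH D) p = nu D p := by
  classical
  unfold wT nu
  have hp0 := hp.pos
  symm
  apply Finset.card_bij (fun r _ => (p - r) % p)
  · intro r hr
    rw [mem_image] at hr
    obtain ⟨d, hd, rfl⟩ := hr
    rw [mem_filter, mem_range]
    refine ⟨Nat.mod_lt _ hp0, (d : ℤ), (mem_HH D _).2 ⟨d, hd, rfl⟩, ?_⟩
    have h1 : p ∣ (p - d % p) % p + d := by
      apply (Nat.modEq_zero_iff_dvd).1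
      have h2 : d % p < p := Nat.mod_lt _ hp0
      calc (p - d % p) % p + d ≡ (p - d % p) + d % p [MOD p] := (Nat.mod_modEq _ _).add (Nat.mod_modEq _ _).symm
        _ = p := by omega
        _ ≡ 0 [MOD p] := by rw [Nat.ModEq, Nat.mod_self, Nat.zero_mod]
    exact_mod_cast h1
  · intro r hr s hs h
    rw [mem_image] at hr hs
    obtain ⟨d, hd, rfl⟩ := hr
    obtain ⟨e, he, rfl⟩ := hs
    have h2 : d % p < p := Nat.mod_lt _ hp0
    have h3 : e % p < p := Nat.mod_lt _ hp0
    have h4 : (p - d % p) + d % p ≡ (p - e % p) + e % p [MOD p] := by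
      rw [show (p - d % p) + d % p = p by omega, show (p - e % p) + e % p = p by omega]
    have h5 : d % p ≡ e % p [MOD p] := Nat.ModEq.add_left_cancel h h4
    rw [Nat.ModEq, Nat.mod_mod, Nat.mod_mod] at h5
    exact h5
  · intro m hm
    rw [mem_filter, mem_range] at hm
    obtain ⟨hm1, h, hh, hdv⟩ := hm
    obtain ⟨d, hd, rfl⟩ := (mem_HH D h).1 hh
    have hdv' : p ∣ m + d := by exact_mod_cast hdv
    refine ⟨d % p, mem_image.2 ⟨d, hd, rfl⟩, ?_⟩
    have h2 : d % p < p := Nat.mod_lt _ hp0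
    have h6 : (p - d % p) + d % p ≡ m + d % p [MOD p] := by
      rw [show (p - d % p) + d % p = p by omega]
      have h7 : m + d % p ≡ 0 [MOD p] :=
        ((Nat.ModEq.refl m).add (Nat.mod_modEq d p)).trans ((Nat.modEq_zero_iff_dvd).2 hdv')
      exact ((Nat.modEq_zero_iff_dvd).2 dvd_rfl).trans h7.symm
    have h8 := Nat.ModEq.add_right_cancel' _ h6
    rw [Nat.ModEq, Nat.mod_eq_of_lt hm1] at h8
    exact h8

lemma V_eq (D : Finset ℕ) (y : ℕ) : VT (HH D) y = V D y := by
  unfold VT V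
  apply Finset.prod_congr rfl
  intro p hp
  rw [nu_eq D p (mem_filter.1 hp).2]

/-- Let `k ≥ 1` and `A, θ > 0`. For all `J`, `L`, `x₀`, all `ε > 0` and all large `r`: for all large `x`, with
`y = ⌊x ^ (1 / r)⌋`, for ALL `k`-element sets `D` of positive integers `≤ x ^ A` with `ν(p) < p` for all primes `p`
(the singular series of `{0} ∪ D` does not vanish), ALL intervals `(Z, Z + Y]` with `Y ≥ x ^ θ` and all `T` with
`T V ≤ x₀`, the set `Rough D y` satisfies `PoissonLaw`: for all disjoint windows `(a j, b j] ⊆ (0, T]`, `j < J`, all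
`s ≤ T` outside of them and all `l j ≤ L`, the number of the `n` in `(Z, Z + Y]` with `n + s ∈ Rough D y` and exactly
`l j` elements of `Rough D y` in `(n + a j, n + b j]` for all `j` is `Y V` times the product of the probabilities that
a Poisson variable of mean `(b j - a j) V` has the value `l j`, up to `ε Y V`; and the same without the condition on
`n + s`, with `Y` instead of `Y V`. (With `J = 0`: the interval contains `(1 + O(ε)) Y V` elements of `Rough D y`.) -/
theorem result (k : ℕ) (hk : 1 ≤ k) (A θ : ℝ) (hA : 0 < A) (hθ : 0 < θ) :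
    ∀ (J L : ℕ) (x₀ ε : ℝ), 0 < ε → ∃ r₀ : ℕ, ∀ r : ℕ, r₀ ≤ r → ∀ᶠ x : ℕ in atTop,
      ∀ y : ℕ, y = ⌊(x : ℝ) ^ (1 / (r : ℝ))⌋₊ → ∀ D : Finset ℕ, D.card = k →
      (∀ d ∈ D, 1 ≤ d ∧ (d : ℝ) ≤ (x : ℝ) ^ A) → (∀ p : ℕ, p.Prime → nu D p < p) →
      ∀ Z Y T : ℕ, (x : ℝ) ^ θ ≤ Y → T * V D y ≤ x₀ → PoissonLaw (Rough D y) (V D y) J L ε Z Y T := by
  have h0 : ∀ (x : ℕ) (D : Finset ℕ), (∀ d ∈ D, 1 ≤ d ∧ (d : ℝ) ≤ (x : ℝ) ^ A) → 0 ∉ D := by
    intro x D h h0
    have := (h 0 h0).1
    omega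
  have bd : ∀ (x : ℕ) (D : Finset ℕ), (∀ d ∈ D, 1 ≤ d ∧ (d : ℝ) ≤ (x : ℝ) ^ A) →
      ∀ h ∈ HH D, |(h : ℝ)| ≤ (x : ℝ) ^ A := by
    intro x D h e he
    obtain ⟨d, hd, rfl⟩ := (mem_HH D e).1 he
    rw [Int.cast_natCast, Nat.abs_cast]
    rcases mem_insert.1 hd with hd | hd
    · rw [hd, Nat.cast_zero]
      positivity
    · exact (h d hd).2
  obtain ⟨m1, _⟩ := tup_main (k + 1) (by omega) A θ hA hθ
  · intro J L x₀ ε hε
    obtain ⟨r₀, h⟩ := m1 J L x₀ ε hε
    refine ⟨r₀, fun r hr => ?_⟩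
    filter_upwards [h r hr] with x hx
    intro y hy D hD hDx hw Z Y T hY hT
    have h4 := hx y hy (HH D) (HH_card D k hD (h0 x D hDx)) (bd x D hDx)
      (fun p hp => by rw [nu_eq D p hp]; exact hw p hp) Z Y T hY
    rw [V_eq, rough_eq] at h4
    exact h4 hT

end Pool.Agent.Results.MP_485179_nt.UniformTuples
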